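import Pool.Agent.Y579.NL.Defs

/-! Job NL-ISO: an isolated member of a `Π⁰₁` class (helper592). -/

set_option autoImplicit false

namespace Pool.Agent.Y592.NL

open Pool.Agent.Y579.NL Pool.Agent.Results.MP_743c94_lc.Full

/-- the bits of a number -/
def B (c i : ℕ) : Bool := (c / 2 ^ i).bodd

theorem B_ex (t : ℕ) : ∀ W : ℕ → Bool, ∃ c < 2 ^ t, ∀ i < t, B c i = W i := by
  induction t with
  | zero => exact fun W => ⟨0, by norm_num, fun i hi => absurd hi (Nat.not_lt_zero i)⟩
  | succ t ih =>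
    intro W
    obtain ⟨c, hc, h⟩ := ih fun i => W (i + 1)
    refine ⟨(W 0).toNat + 2 * c, ?_, ?_⟩
    · have : (W 0).toNat ≤ 1 := by cases W 0 <;> simp
      rw [pow_succ]
      omega
    · intro i hi
      cases i with
      | zero =>
        unfold B
        rw [pow_zero, Nat.div_one, Nat.bodd_add, Nat.bodd_mul]
        cases W 0 <;> simp
      | succ i =>
        have h1 := h i (by omega)
        unfold B at h1 ⊢
        rw [← h1]
        congr 1
        rw [pow_succ', ← Nat.div_div_eq_div_mul]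
        congr 1
        have : (W 0).toNat ≤ 1 := by cases W 0 <;> simp
        omega

theorem pow_prim : Primrec fun n : ℕ => 2 ^ n := by
  have h1 : Primrec (Nat.rec 1 fun _ r => 2 * r : ℕ → ℕ) :=
    Primrec.nat_rec₁ 1 (Primrec.nat_mul.comp₂ (Primrec₂.const 2) Primrec₂.right)
  refine h1.of_eq fun n => ?_
  induction n with
  | zero => rfl
  | succ n ih =>
    show 2 * (Nat.rec 1 (fun _ r => 2 * r) n : ℕ) = 2 ^ (n + 1)
    rw [ih, pow_succ]
    ring

theorem B_prim : Primrec₂ B :=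
  Primrec.nat_bodd.comp (Primrec.nat_div.comp Primrec.fst (pow_prim.comp Primrec.snd))

theorem pre_prim : Primrec₂ fun c i : ℕ => pre (B c) i :=
  Primrec.list_map (Primrec.list_range.comp Primrec.snd)
    (B_prim.comp (Primrec.fst.comp Primrec.fst) Primrec.snd)

theorem pre_congr {W W' : ℕ → Bool} {n : ℕ} (h : ∀ i < n, W i = W' i) : pre W n = pre W' n := by
  unfold pre
  refine List.map_congr_left fun i hi => h i (List.mem_range.1 hi)

theorem eq_of_pre {W W' : ℕ → Bool} {n : ℕ} (h : pre W n = pre W' n) : ∀ i < n, W i = W' i := by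
  intro i hi
  have h1 := pre_getElem? W hi
  have h2 := pre_getElem? W' hi
  rw [h, h2] at h1
  exact (Option.some.inj h1).symm

/-- the values -/
def A (m : Bool → Bool → Bool → Bool) (W : ℕ → Bool) (x : ℕ) : Bool :=
  m (W (3 * x)) (W (3 * x + 1)) (W (3 * x + 2))

theorem A_congr {m : Bool → Bool → Bool → Bool} {W W' : ℕ → Bool} {x n : ℕ}
    (h : ∀ i < n, W i = W' i) (hx : 3 * x + 2 < n) : A m W x = A m W' x := by
  unfold A
  rw [h _ (by omega), h _ (by omega), h _ hx]

/-- step 1 -/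
theorem isolated {Bad : List Bool → Prop} (m : Bool → Bool → Bool → Bool)
    (hne : ∃ W : ℕ → Bool, ∀ n, ¬ Bad (pre W n))
    (hfin : ∀ W W' : ℕ → Bool, (∀ n, ¬ Bad (pre W n)) → (∀ n, ¬ Bad (pre W' n)) →
      {x | A m W x ≠ A m W' x}.Finite) :
    ∃ (W : ℕ → Bool) (n : ℕ), (∀ n, ¬ Bad (pre W n)) ∧
      ∀ W' : ℕ → Bool, (∀ n, ¬ Bad (pre W' n)) → (∀ i < n, W' i = W i) →
        ∀ x, A m W' x = A m W x := by
  by_contra hcon
  push Not at hcon
  obtain ⟨W0, hW0⟩ := hne
  have hstep : ∀ S : {W : ℕ → Bool // ∀ n, ¬ Bad (pre W n)} × ℕ,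
      ∃ S' : {W : ℕ → Bool // ∀ n, ¬ Bad (pre W n)} × ℕ, (∀ i < S.2, S'.1.1 i = S.1.1 i) ∧
        S.2 < S'.2 ∧ ∃ x, S.2 ≤ 3 * x + 2 ∧ 3 * x + 2 < S'.2 ∧ A m S'.1.1 x ≠ A m W0 x := by
    rintro ⟨⟨W, hW⟩, n⟩
    obtain ⟨W', hW', hag, x, hx⟩ := hcon W n hW
    have hnx : n ≤ 3 * x + 2 := by
      by_contra h
      exact hx (A_congr hag (by omega))
    by_cases h : A m W x = A m W0 x
    · refine ⟨⟨⟨W', hW'⟩, max (n + 1) (3 * x + 3)⟩, hag, ?_, x, hnx, ?_, ?_⟩
      · show n < max (n + 1) (3 * x + 3)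
        omega
      · show 3 * x + 2 < max (n + 1) (3 * x + 3)
        omega
      · show A m W' x ≠ A m W0 x
        rw [← h]
        exact hx
    · refine ⟨⟨⟨W, hW⟩, max (n + 1) (3 * x + 3)⟩, fun _ _ => rfl, ?_, x, hnx, ?_, h⟩
      · show n < max (n + 1) (3 * x + 3)
        omega
      · show 3 * x + 2 < max (n + 1) (3 * x + 3)
        omega
  choose F hF1 hF2 hF3 using hstep
  let S : ℕ → {W : ℕ → Bool // ∀ n, ¬ Bad (pre W n)} × ℕ := fun k =>
    Nat.rec (⟨W0, hW0⟩, 0) (fun _ s => F s) k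
  have hS : ∀ k, S (k + 1) = F (S k) := fun k => rfl
  have hk : ∀ k, k ≤ (S k).2 := by
    intro k
    induction k with
    | zero => exact Nat.zero_le _
    | succ k ih =>
      have := hF2 (S k)
      rw [hS]
      omega
  have hmono : ∀ j k, j ≤ k → (S j).2 ≤ (S k).2 := by
    intro j k hjk
    induction k, hjk using Nat.le_induction with
    | base => exact le_refl _
    | succ k _ ih =>
      have := hF2 (S k)
      rw [hS]
      omega
  have hag : ∀ j k, j ≤ k → ∀ i < (S j).2, (S k).1.1 i = (S j).1.1 i := by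
    intro j k hjk
    induction k, hjk using Nat.le_induction with
    | base => exact fun _ _ => rfl
    | succ k hjk ih =>
      intro i hi
      rw [hS, hF1 (S k) i (lt_of_lt_of_le hi (hmono j k hjk))]
      exact ih i hi
  let V : ℕ → Bool := fun i => (S (i + 1)).1.1 i
  have hV : ∀ k, ∀ i < (S k).2, V i = (S k).1.1 i := by
    intro k i hi
    show (S (i + 1)).1.1 i = (S k).1.1 i
    rcases le_total k (i + 1) with h | h
    · exact hag k (i + 1) h i hi
    · exact (hag (i + 1) k h i (lt_of_lt_of_le (Nat.lt_succ_self i) (hk (i + 1)))).symm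
  have hVC : ∀ n, ¬ Bad (pre V n) := by
    intro n
    rw [pre_congr fun i hi => hV n i (lt_of_lt_of_le hi (hk n))]
    exact (S n).1.2 n
  have hf := hfin V W0 hVC hW0
  obtain ⟨N, hN⟩ := hf.bddAbove
  obtain ⟨x, hx1, hx2, hx3⟩ := hF3 (S (3 * N + 3))
  have h1 : A m V x ≠ A m W0 x := by
    rw [A_congr (hV (3 * N + 3 + 1)) hx2]
    exact hx3
  have h2 : x ≤ N := hN h1
  have h3 := hk (3 * N + 3)
  omega

/-- step 2, compactness -/
theorem compact {Bad : List Bool → Prop} (m : Bool → Bool → Bool → Bool) (W : ℕ → Bool) (n : ℕ)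
    (hW : ∀ n, ¬ Bad (pre W n))
    (hiso : ∀ W' : ℕ → Bool, (∀ n, ¬ Bad (pre W' n)) → (∀ i < n, W' i = W i) →
        ∀ x, A m W' x = A m W x) (x : ℕ) (b : Bool) :
    A m W x = b ↔ ∃ s : ℕ, ∀ c < 2 ^ (n + 3 * x + 3 + s), pre (B c) n ≠ pre W n ∨
      (∃ i, i < n + 3 * x + 3 + s + 1 ∧ Bad (pre (B c) i)) ∨ A m (B c) x = b := by
  constructor
  · intro hb
    by_contra hcon
    push Not at hcon
    choose c hc1 hc2 hc3 hc4 using hcon
    have hlim : ∀ i, ∃ v : Bool, ∀ᶠ s in (Filter.hyperfilter ℕ : Filter ℕ), B (c s) i = v := by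
      intro i
      by_cases h : ∀ᶠ s in (Filter.hyperfilter ℕ : Filter ℕ), B (c s) i = true
      · exact ⟨true, h⟩
      · refine ⟨false, ?_⟩
        filter_upwards [Ultrafilter.eventually_not.2 h] with s hs
        exact Bool.eq_false_iff.2 hs
    choose V hV using hlim
    have hVj : ∀ j, ∀ᶠ s in (Filter.hyperfilter ℕ : Filter ℕ), ∀ i < j, B (c s) i = V i := by
      intro j
      induction j with
      | zero => exact Filter.Eventually.of_forall fun s i hi => absurd hi (Nat.not_lt_zero i)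
      | succ j ih =>
        filter_upwards [ih, hV j] with s h1 h2 i hi
        rcases Nat.lt_succ_iff_lt_or_eq.1 hi with h | h
        · exact h1 i h
        · rw [h]
          exact h2
    have hlarge : ∀ j : ℕ, ∀ᶠ s in (Filter.hyperfilter ℕ : Filter ℕ), j ≤ s := by
      intro j
      have h1 : ∀ᶠ s in Filter.cofinite, j ≤ s := by
        rw [Nat.cofinite_eq_atTop]
        exact Filter.eventually_ge_atTop j
      exact Filter.hyperfilter_le_cofinite h1
    have hVC : ∀ j, ¬ Bad (pre V j) := by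
      intro j
      obtain ⟨s, h1, h2⟩ := ((hVj j).and (hlarge j)).exists
      rw [← pre_congr h1]
      exact hc3 s j (by omega)
    have hVn : ∀ i < n, V i = W i := by
      obtain ⟨s, h1⟩ := (hVj n).exists
      intro i hi
      rw [← h1 i hi]
      exact eq_of_pre (hc2 s) i hi
    obtain ⟨s, h1⟩ := (hVj (3 * x + 3)).exists
    apply hc4 s
    rw [A_congr h1 (by omega), hiso V hVC hVn x]
    exact hb
  · rintro ⟨s, hs⟩
    obtain ⟨c, hc, hcW⟩ := B_ex (n + 3 * x + 3 + s) W
    rcases hs c hc with h | h | h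
    · exact absurd (pre_congr fun i hi => hcW i (by omega)) h
    · obtain ⟨i, hi, hbad⟩ := h
      rw [pre_congr (W' := W) fun i' hi' => hcW i' (by omega)] at hbad
      exact absurd hbad (hW i)
    · rw [← h]
      exact (A_congr hcW (by omega)).symm

theorem t_ISOLATE : ISOLATE := by
  intro Bad hBad m hne hfin
  obtain ⟨W, n, hW, hiso⟩ := isolated m hne hfin
  refine ⟨W, hW, ?_⟩
  have hm : Primrec fun y : Bool × Bool × Bool => m y.1 y.2.1 y.2.2 := Primrec.dom_finite _
  have hA : Primrec₂ fun c x : ℕ => A m (B c) x := by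
    have h3 : Primrec fun p : ℕ × ℕ => 3 * p.2 :=
      Primrec.nat_mul.comp (Primrec.const 3) Primrec.snd
    have h31 : Primrec fun p : ℕ × ℕ => 3 * p.2 + 1 := Primrec.succ.comp h3
    have h32 : Primrec fun p : ℕ × ℕ => 3 * p.2 + 2 := Primrec.succ.comp h31
    exact hm.comp (Primrec.pair (B_prim.comp Primrec.fst h3)
      (Primrec.pair (B_prim.comp Primrec.fst h31) (B_prim.comp Primrec.fst h32)))
  have hre : REPred fun p : ℕ × Bool => A m W p.1 = p.2 := by
    have h1 : REPred fun p : ℕ × Bool => ∃ s : ℕ, ∀ c < 2 ^ (n + 3 * p.1 + 3 + s),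
        pre (B c) n ≠ pre W n ∨ (∃ i, i < n + 3 * p.1 + 3 + s + 1 ∧ Bad (pre (B c) i)) ∨
          A m (B c) p.1 = p.2 := by
      refine Helper446.RE.exN (p := fun (p : ℕ × Bool) s => ∀ c < 2 ^ (n + 3 * p.1 + 3 + s),
        pre (B c) n ≠ pre W n ∨ (∃ i, i < n + 3 * p.1 + 3 + s + 1 ∧ Bad (pre (B c) i)) ∨
          A m (B c) p.1 = p.2) ?_
      have hT : Primrec fun a : (ℕ × Bool) × ℕ => n + 3 * a.1.1 + 3 + a.2 :=
        Primrec.nat_add.comp (Primrec.nat_add.comp (Primrec.nat_add.comp (Primrec.const n)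
          (Primrec.nat_mul.comp (Primrec.const 3) (Primrec.fst.comp Primrec.fst)))
          (Primrec.const 3)) Primrec.snd
      refine Helper446.RE.all_lt (p := fun (a : (ℕ × Bool) × ℕ) c =>
        pre (B c) n ≠ pre W n ∨ (∃ i, i < n + 3 * a.1.1 + 3 + a.2 + 1 ∧ Bad (pre (B c) i)) ∨
          A m (B c) a.1.1 = a.1.2) ?_ (f := fun a => 2 ^ (n + 3 * a.1.1 + 3 + a.2))
        (pow_prim.comp hT).to_comp
      refine Helper446.RE.or (Helper446.RE.ne
        (pre_prim.comp Primrec.snd (Primrec.const n)).to_comp (Computable.const _)) ?_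
      refine Helper446.RE.or ?_ (Helper446.RE.eq (hA.comp Primrec.snd
        (Primrec.fst.comp (Primrec.fst.comp Primrec.fst))).to_comp
        (Primrec.snd.comp (Primrec.fst.comp Primrec.fst)).to_comp)
      refine Helper446.RE.exN (p := fun (y : ((ℕ × Bool) × ℕ) × ℕ) i =>
        i < n + 3 * y.1.1.1 + 3 + y.1.2 + 1 ∧ Bad (pre (B y.2) i)) ?_
      refine Helper446.RE.and (Helper446.RE.lt Computable.snd
        (Primrec.succ.comp (hT.comp (Primrec.fst.comp Primrec.fst))).to_comp) ?_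
      exact Helper446.RE.comp hBad
        (pre_prim.comp (Primrec.snd.comp Primrec.fst) Primrec.snd).to_comp
    refine h1.of_eq fun p => ?_
    exact (compact m W n hW hiso p.1 p.2).symm
  exact Helper446.RE.computable_of_graph (f := A m W) hre

end Pool.Agent.Y592.NL
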